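import Pool.Agent.TH467.OC.CircCount

/-!
# The `S_4`-conjecture for cubic graphs with few odd circuits isolated by a perfect matching

Multigraphs with edge set `E`, the ends of the edge `e` are `a e` and `b e`.

* `delta a b X`: the cut `δ(X)`, the edges with exactly one end in `X`.
* `PM a b M`: `M` is a perfect matching.
* `OddCirc a b S X`: `X` is the vertex set of a circuit of odd length with all edges in `S`.
* `circCuts a b`: the cuts `δ(X)`, `X` the vertex set of an odd circuit, which are contained in a perfect
  matching.
* `Bip a b S`: the edge set `S` is bipartite.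

Proof.  An odd circuit outside of `M₁ ∪ M₂`, with vertex set `X`, has `δ(X) ⊆ M₁ ∩ M₂`.  `M₁` and `M₂` are
chosen one after the other by averaging over the perfect matching polytope (Edmonds' theorem; all edges have
probability `1/3`), so that no `D` in `circCuts` is contained in `M₁ ∩ M₂`.
-/

set_option autoImplicit false

namespace Pool.Agent.Results.MP_9d84f2_co.FewOddCircuits

open Finset Pool.Agent.TH467.OC

/-- A loopless cubic graph without bridges has two perfect matchings `M₁`, `M₂` such that
`G - (M₁ ∪ M₂)` is bipartite, if the cuts `D` in `circCuts` satisfy `∑ ((|D| - 3) / (|D| - 1)) ^ 2 < 9`,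
in particular if at most nine of them have five or more edges, or if at most 35 have five edges and none
has more. -/
theorem result {V E : Type} [Fintype V] [DecidableEq V] [Fintype E] [DecidableEq E] (a b : E → V)
    (noloop : ∀ e, a e ≠ b e)
    (cubic : ∀ v, (univ.filter fun e => a e = v ∨ b e = v).card = 3)
    (bridgeless : ∀ X : Finset V, (delta a b X).card ≠ 1)
    (few : ∑ D ∈ circCuts a b, (((D.card : ℝ) - 3) / (D.card - 1)) ^ 2 < 9 ∨
      ((circCuts a b).filter fun D => 5 ≤ D.card).card ≤ 9 ∨
      (((circCuts a b).filter fun D => 5 ≤ D.card).card ≤ 35 ∧ ∀ D ∈ circCuts a b, D.card ≤ 5)) :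
    ∃ M₁ M₂, PM a b M₁ ∧ PM a b M₂ ∧ Bip a b (M₁ ∪ M₂)ᶜ :=
  s_four_of_few (rg_three noloop cubic bridgeless) few

end Pool.Agent.Results.MP_9d84f2_co.FewOddCircuits
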